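import Pool.Agent.Q120.TL.Stm
import Pool.Agent.Q120.SI.Main

/-!
# Project TL: assembly
-/

set_option autoImplicit false

namespace Pool.Agent.Q120.TL

open Finset MeasureTheory Filter Pool.Agent.Q120.ET Pool.Agent.Q120.GM Pool.Agent.Q120.GE Pool.Agent.Q120.RZ
open scoped Topology

/-- The jobs. -/
structure TJobs : Prop where
  law : J_LAW
  ent : J_ENT
  tla : J_TLA
  tlc : J_TLC
  mixc : J_MIXC

/-- All random sets with relative entropies on `[3, x)` at most `x ^ (δ + o(1))` almost surely have the property `E`. -/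
def AllLow (δ : ℝ) (E : Set ℕ → Prop) : Prop :=
  ∀ (Ω : Type) [MeasurableSpace Ω] (μ : Measure Ω) [IsProbabilityMeasure μ] (A : Ω → Set ℕ), IsRandomSet A →
    (∀ ε : ℝ, 0 < ε → ∀ᶠ k : ℕ in atTop, relEntropy μ A (low (k + 1)) ≤ (2 : ℝ) ^ ((δ + ε) * k)) → ∀ᵐ ω ∂μ, E (A ω)

/-- Some random set with relative entropies on `[3, x)` at most `x ^ (δ + o(1))` almost surely has the property `E`. -/
def SomeLow (δ : ℝ) (E : Set ℕ → Prop) : Prop :=
  ∃ (Ω : Type) (_ : MeasurableSpace Ω) (μ : Measure Ω) (_ : IsProbabilityMeasure μ) (A : Ω → Set ℕ), IsRandomSet A ∧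
    (∀ ε : ℝ, 0 < ε → ∀ᶠ k : ℕ in atTop, relEntropy μ A (low (k + 1)) ≤ (2 : ℝ) ^ ((δ + ε) * k)) ∧ ∀ᵐ ω ∂μ, E (A ω)

theorem Tup.mono {κ C C' : ℝ} (h : C ≤ C') {S : Set ℕ} (hS : Tup κ C' S) : Tup κ C S := by
  filter_upwards [hS] with j hj H hH hc
  refine hj H (fun a ha => (hH a ha).trans ?_) hc
  exact Real.rpow_le_rpow_of_exponent_le (by norm_num) (mul_le_mul_of_nonneg_right h (Nat.cast_nonneg j))

/-- **The positive part.** -/
theorem all_tup_aux (J : TJobs) {δ κ C : ℝ} (hδ : 0 ≤ δ) (hκ : 0 < κ) (hC : 1 ≤ C) (h : κ + C * δ < 1) : AllLow δ (Tup κ C) := by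
  classical
  intro Ω _ μ _ A hA hD
  set ρ : ℝ := (1 - κ - C * δ) / 4 with hρ
  have hρ0 : 0 < ρ := by
    rw [hρ]
    linarith
  have hCδ : 0 ≤ C * δ := by positivity
  have hκρ : κ + ρ < 1 := by
    rw [hρ]
    linarith
  -- the event, as an event on `low`
  set M : ℕ → ℕ := fun j => ⌈C * j⌉₊ + 1 with hM
  set F : ℕ → Finset ℕ → Prop := fun j T => ∃ H : Finset ℕ, (∀ a ∈ H, (a : ℝ) ≤ (2 : ℝ) ^ (C * j)) ∧ (H.card : ℝ) ≤ κ * Ln j ∧
      ∀ n ∈ block j, ∃ a ∈ H, n + a ∉ T with hF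
  have hlow : ∀ j : ℕ, 2 ≤ j → ∀ H : Finset ℕ, (∀ a ∈ H, (a : ℝ) ≤ (2 : ℝ) ^ (C * j)) → ∀ n ∈ block j, ∀ a ∈ H,
      n + a ∈ low (M j + 1) := by
    intro j hj H hH n hn a ha
    rw [low, mem_Ico]
    rw [block, mem_Ico] at hn
    have h4 : 4 ≤ 2 ^ j := by
      calc 4 = 2 ^ 2 := by norm_num
        _ ≤ 2 ^ j := Nat.pow_le_pow_right (by norm_num) hj
    refine ⟨by omega, ?_⟩
    have h1 : (a : ℝ) ≤ (2 : ℝ) ^ ⌈C * j⌉₊ := by
      refine (hH a ha).trans ?_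
      rw [← Real.rpow_natCast]
      exact Real.rpow_le_rpow_of_exponent_le (by norm_num) (Nat.le_ceil _)
    have h2 : a ≤ 2 ^ ⌈C * j⌉₊ := by exact_mod_cast h1
    have h3 : j ≤ ⌈C * j⌉₊ := by
      have h5 : (j : ℝ) ≤ C * j := le_mul_of_one_le_left (Nat.cast_nonneg j) hC
      exact_mod_cast h5.trans (Nat.le_ceil _)
    have h5 : 2 ^ (j + 1) ≤ 2 ^ (⌈C * j⌉₊ + 1) := Nat.pow_le_pow_right (by norm_num) (by omega)
    simp only [hM]
    have h6 : 2 ^ (⌈C * j⌉₊ + 1 + 1) = 2 * 2 ^ (⌈C * j⌉₊ + 1) := by ring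
    have h7 : 2 ^ (⌈C * j⌉₊ + 1) = 2 * 2 ^ ⌈C * j⌉₊ := by ring
    have h8 : 0 < 2 ^ ⌈C * j⌉₊ := by positivity
    omega
  have hFiff : ∀ j : ℕ, 2 ≤ j → ∀ (Ω' : Type) [MeasurableSpace Ω'] (A' : Ω' → Set ℕ) (ω : Ω'), F j (tr A' (low (M j + 1)) ω) ↔
      ∃ H : Finset ℕ, (∀ a ∈ H, (a : ℝ) ≤ (2 : ℝ) ^ (C * j)) ∧ (H.card : ℝ) ≤ κ * Ln j ∧
      ∀ n ∈ block j, ∃ a ∈ H, n + a ∉ A' ω := by
    intro j hj Ω' _ A' ω
    simp only [hF]
    refine exists_congr (fun H => ?_)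
    constructor
    · rintro ⟨h1, h2, h3⟩
      refine ⟨h1, h2, fun n hn => ?_⟩
      obtain ⟨a, ha, h4⟩ := h3 n hn
      exact ⟨a, ha, fun h5 => h4 (mem_tr.2 ⟨hlow j hj H h1 n hn a ha, h5⟩)⟩
    · rintro ⟨h1, h2, h3⟩
      refine ⟨h1, h2, fun n hn => ?_⟩
      obtain ⟨a, ha, h4⟩ := h3 n hn
      exact ⟨a, ha, fun h5 => h4 (mem_tr.1 h5).2⟩
  have hMt : Tendsto M atTop atTop := by
    refine tendsto_atTop_mono (fun j => ?_) tendsto_id
    simp only [hM, id]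
    have h5 : (j : ℝ) ≤ C * j := le_mul_of_one_le_left (Nat.cast_nonneg j) hC
    have h6 : j ≤ ⌈C * j⌉₊ := by exact_mod_cast h5.trans (Nat.le_ceil _)
    omega
  have h2 := bc (μ := μ) (B := fun j => {ω | F j (tr A (low (M j + 1)) ω)})
    (g := fun j => 2 * (2 : ℝ) ^ ((δ + ρ / C) * 2) * ((j : ℝ) ^ 0 / (2 : ℝ) ^ (ρ * j)))
    ((SI.summable_pow_div hρ0 0).mul_left _) (by
    filter_upwards [J.tla κ C ρ hκ hC hρ0 hκρ, hMt.eventually (hD (ρ / C) (by positivity)), eventually_ge_atTop 2] with j hj hj2 hj3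
    have hj0 : (0 : ℝ) ≤ j := Nat.cast_nonneg j
    have hu : 0 < (2 : ℝ) ^ ((1 - κ - ρ) * j) := by positivity
    have h3 := J.ent J.law (M j) (F j) _ hu (by
      intro Ω' _ μ' _ A' hA'
      have h4 : {ω | F j (tr A' (low (M j + 1)) ω)} = {ω | ∃ H : Finset ℕ, (∀ a ∈ H, (a : ℝ) ≤ (2 : ℝ) ^ (C * j)) ∧
          (H.card : ℝ) ≤ κ * Ln j ∧ ∀ n ∈ block j, ∃ a ∈ H, n + a ∉ A' ω} := by
        ext ω
        exact hFiff j hj3 Ω' A' ω
      rw [h4]
      exact hj Ω' μ' A' hA') Ω μ A hA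
    refine h3.trans ?_
    have hCpos : 0 < C := by linarith
    have hMj : (M j : ℝ) ≤ C * j + 2 := by
      simp only [hM]
      push_cast
      have := Nat.ceil_lt_add_one (show 0 ≤ C * j by positivity)
      linarith
    have h5 : (2 : ℝ) ^ ((δ + ρ / C) * (M j : ℝ)) ≤ (2 : ℝ) ^ ((δ + ρ / C) * 2) * (2 : ℝ) ^ ((C * δ + ρ) * j) := by
      rw [← Real.rpow_add (by norm_num)]
      apply Real.rpow_le_rpow_of_exponent_le (by norm_num)
      have h6 : 0 ≤ δ + ρ / C := by positivity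
      have h7 := mul_le_mul_of_nonneg_left hMj h6
      have h8 : (δ + ρ / C) * (C * j + 2) = (δ + ρ / C) * 2 + (C * δ + ρ) * j := by
        field_simp
        ring
      linarith
    have h6 : (1 : ℝ) ≤ (2 : ℝ) ^ ((δ + ρ / C) * 2) * (2 : ℝ) ^ ((C * δ + ρ) * j) := by
      rw [← Real.rpow_add (by norm_num)]
      exact Real.one_le_rpow (by norm_num) (by positivity)
    have h7 : (2 : ℝ) ^ ((C * δ + ρ) * j) * (2 : ℝ) ^ (ρ * j) ≤ (2 : ℝ) ^ ((1 - κ - ρ) * j) := by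
      rw [← Real.rpow_add (by norm_num)]
      apply Real.rpow_le_rpow_of_exponent_le (by norm_num)
      have : C * δ + ρ + ρ ≤ 1 - κ - ρ := by
        rw [hρ]
        linarith
      nlinarith
    have hp : (0 : ℝ) < (2 : ℝ) ^ (ρ * j) := by positivity
    have hq : (0 : ℝ) < (2 : ℝ) ^ ((δ + ρ / C) * 2) := by positivity
    rw [pow_zero, mul_one_div, div_le_div_iff₀ hu hp]
    calc (1 + relEntropy μ A (low (M j + 1))) * (2 : ℝ) ^ (ρ * j)
        ≤ (2 * ((2 : ℝ) ^ ((δ + ρ / C) * 2) * (2 : ℝ) ^ ((C * δ + ρ) * j))) * (2 : ℝ) ^ (ρ * j) := by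
          refine mul_le_mul_of_nonneg_right ?_ hp.le
          linarith
      _ = 2 * (2 : ℝ) ^ ((δ + ρ / C) * 2) * ((2 : ℝ) ^ ((C * δ + ρ) * j) * (2 : ℝ) ^ (ρ * j)) := by ring
      _ ≤ 2 * (2 : ℝ) ^ ((δ + ρ / C) * 2) * (2 : ℝ) ^ ((1 - κ - ρ) * j) :=
          mul_le_mul_of_nonneg_left h7 (by positivity))
  filter_upwards [h2] with ω hω
  filter_upwards [hω, eventually_ge_atTop 2] with j hj hj2 H hH hc
  by_contra h3
  push Not at h3
  exact hj ((hFiff j hj2 Ω A ω).2 ⟨H, hH, hc, h3⟩)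

theorem all_tup (J : TJobs) {δ κ C : ℝ} (hδ : 0 ≤ δ) (hκ : 0 < κ) (h : κ + max 1 C * δ < 1) : AllLow δ (Tup κ C) := by
  intro Ω _ μ _ A hA hD
  filter_upwards [all_tup_aux J hδ hκ (le_max_left 1 C) h Ω μ A hA hD] with ω hω
  exact hω.mono (le_max_right 1 C)

/-- The block used for `j`. -/
noncomputable def Kj (C : ℝ) (j : ℕ) : ℕ := if C ≤ 1 then j else ⌊C * j⌋₊ - 1

theorem Kj_le {C : ℝ} (j : ℕ) : max 1 C * j ≤ (Kj C j : ℝ) + 2 := by
  unfold Kj
  split_ifs with h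
  · rw [max_eq_left h, one_mul]
    linarith
  · rw [not_le] at h
    rw [max_eq_right h.le]
    have h1 := (Nat.lt_floor_add_one (C * j)).le
    have h2 : (⌊C * j⌋₊ : ℝ) ≤ ((⌊C * j⌋₊ - 1 : ℕ) : ℝ) + 1 := by
      have : ⌊C * j⌋₊ ≤ (⌊C * j⌋₊ - 1) + 1 := by omega
      exact_mod_cast this
    linarith

theorem Kj_cases {C : ℝ} : ∀ᶠ j : ℕ in atTop, Kj C j = j ∨ j + 2 ≤ Kj C j := by
  by_cases h : C ≤ 1
  · refine Eventually.of_forall (fun j => Or.inl ?_)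
    rw [Kj, if_pos h]
  · rw [not_le] at h
    have h1 : Tendsto (fun j : ℕ => (C - 1) * (j : ℝ)) atTop atTop := tendsto_natCast_atTop_atTop.const_mul_atTop (by linarith)
    filter_upwards [h1.eventually_ge_atTop 3] with j hj
    right
    rw [Kj, if_neg (not_le.2 h)]
    have h2 : ((j + 3 : ℕ) : ℝ) ≤ C * j := by
      push_cast
      linarith
    have h3 : j + 3 ≤ ⌊C * j⌋₊ := Nat.le_floor h2
    omega

theorem Kj_tendsto {C : ℝ} : Tendsto (Kj C) atTop atTop := by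
  refine tendsto_atTop_mono' _ ?_ tendsto_id
  filter_upwards [Kj_cases (C := C)] with j hj
  simp only [id]
  omega

theorem Ln_nonneg (j : ℕ) : 0 ≤ Ln j := by
  unfold Ln
  have h1 : 0 ≤ Real.log j := Real.log_natCast_nonneg j
  have h2 : 0 < Real.log 2 := Real.log_pos (by norm_num)
  positivity

theorem Ln_le {j : ℕ} (hj : 3 ≤ j) : Ln j ≤ j := by
  unfold Ln
  have h2 : Real.log 2 ≤ 1 := by
    have := Real.log_two_lt_d9
    linarith
  have h3 : (1 : ℝ) ≤ Real.log j := by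
    have h4 : (1 : ℝ) ≤ Real.log 3 := by
      rw [Real.le_log_iff_exp_le (by norm_num)]
      have := Real.exp_one_lt_d9
      linarith
    exact h4.trans (Real.log_le_log (by norm_num) (by exact_mod_cast hj))
  rw [div_le_iff₀ (by linarith)]
  have hj0 : (0 : ℝ) ≤ j := Nat.cast_nonneg j
  nlinarith

/-- The shifts are admissible. -/
theorem Hs_ok {κ C : ℝ} (hκ : 0 < κ) (hC : 0 < C) : ∀ᶠ j : ℕ in atTop,
    (∀ a ∈ Hs κ j (Kj C j), (a : ℝ) ≤ (2 : ℝ) ^ (C * j)) ∧ ((Hs κ j (Kj C j)).card : ℝ) ≤ κ * Ln j := by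
  have hlin : ∀ᶠ j : ℕ in atTop, κ * (j : ℝ) ≤ (2 : ℝ) ^ (min C 1 / 2 * j) := by
    have h1 := SI.ev_pow_le (show (0 : ℝ) < min C 1 / 2 by have := lt_min hC one_pos; linarith) 1 κ
    filter_upwards [h1] with j hj
    rwa [pow_one] at hj
  filter_upwards [hlin, Kj_cases (C := C), eventually_ge_atTop 3] with j hj hj2 hj3
  have hj0 : (0 : ℝ) ≤ j := Nat.cast_nonneg j
  have hL0 := Ln_nonneg j
  have hfl : (⌊κ * Ln j⌋₊ : ℝ) ≤ κ * Ln j := Nat.floor_le (by positivity)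
  have hh : (⌊κ * Ln j⌋₊ : ℝ) ≤ (2 : ℝ) ^ (min C 1 / 2 * j) :=
    hfl.trans ((mul_le_mul_of_nonneg_left (Ln_le hj3) hκ.le).trans hj)
  have hcard : (Hs κ j (Kj C j)).card = ⌊κ * Ln j⌋₊ := by
    unfold Hs
    split_ifs
    · rw [card_range]
    · rw [Nat.card_Ico]
      omega
  refine ⟨fun a ha => ?_, by rw [hcard]; exact hfl⟩
  unfold Hs at ha
  have hCm : min C 1 / 2 * j ≤ C * j := by
    apply mul_le_mul_of_nonneg_right _ hj0
    have := min_le_left C 1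
    linarith
  split_ifs at ha with h1
  · rw [mem_range] at ha
    have h2 : (a : ℝ) ≤ (⌊κ * Ln j⌋₊ : ℝ) := by exact_mod_cast ha.le
    exact h2.trans (hh.trans (Real.rpow_le_rpow_of_exponent_le (by norm_num) hCm))
  · have h3 : j + 2 ≤ Kj C j := hj2.resolve_left h1
    have hC1 : ¬ C ≤ 1 := by
      intro h4
      rw [Kj, if_pos h4] at h1
      exact h1 rfl
    have hK : Kj C j = ⌊C * j⌋₊ - 1 := by rw [Kj, if_neg hC1]
    rw [mem_Ico] at ha
    have h4 : (⌊κ * Ln j⌋₊ : ℝ) ≤ (2 : ℝ) ^ Kj C j := by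
      refine hh.trans ?_
      rw [← Real.rpow_natCast]
      apply Real.rpow_le_rpow_of_exponent_le (by norm_num)
      have h5 : (j : ℝ) ≤ Kj C j := by
        have : j ≤ Kj C j := by omega
        exact_mod_cast this
      have h6 : min C 1 / 2 * (j : ℝ) ≤ 1 * j := by
        apply mul_le_mul_of_nonneg_right _ hj0
        have := min_le_right C 1
        linarith
      linarith
    have h5 : (a : ℝ) ≤ (2 : ℝ) ^ Kj C j + ⌊κ * Ln j⌋₊ := by exact_mod_cast ha.2.le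
    have h6 : (2 : ℝ) ^ (Kj C j + 1) ≤ (2 : ℝ) ^ (C * j) := by
      rw [← Real.rpow_natCast]
      apply Real.rpow_le_rpow_of_exponent_le (by norm_num)
      have h7 : Kj C j + 1 = ⌊C * j⌋₊ := by omega
      rw [h7]
      exact Nat.floor_le (by positivity)
    calc (a : ℝ) ≤ (2 : ℝ) ^ Kj C j + ⌊κ * Ln j⌋₊ := h5
      _ ≤ (2 : ℝ) ^ Kj C j + (2 : ℝ) ^ Kj C j := by linarith
      _ = (2 : ℝ) ^ (Kj C j + 1) := by rw [pow_succ]; ring
      _ ≤ _ := h6

/-- **The negative part.** -/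
theorem some_tup (J : TJobs) {δ κ C : ℝ} (hδ : 0 ≤ δ) (hκ : 0 < κ) (hC : 0 < C) (h : 1 < κ + max 1 C * δ) :
    SomeLow δ (fun S => ¬ Tup κ C S) := by
  classical
  set ε : ℝ := κ + max 1 C * δ - 1 with hε
  have hε0 : 0 < ε := by
    rw [hε]
    linarith
  obtain ⟨J0, hJ0⟩ := eventually_atTop.1 (((J.tlc κ ε hκ hε0).and (Kj_cases (C := C))).and (eventually_ge_atTop 4))
  -- the laws
  have hP : ∀ k : ℕ, ∃ P : Finset ℕ → ℝ, (2 ≤ k → (∀ T ∈ (block k).powerset, 0 ≤ P T) ∧ ∑ T ∈ (block k).powerset, P T = 1) ∧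
      ((∃ j, J0 ≤ j ∧ Kj C j = k) → ∃ j, J0 ≤ j ∧ Kj C j = k ∧
        ∑ T ∈ (block k).powerset, P T * Real.log (P T / cramerOn (block k) T) ≤ (2 : ℝ) ^ ((1 - κ + ε) * j) + 4 / j ∧
        ∀ T ∈ (block k).powerset, P T ≠ 0 → ∀ n ∈ block j, ∃ a ∈ Hs κ j k, n + a ∈ block k ∧ n + a ∉ T) := by
    intro k
    by_cases hk : ∃ j, J0 ≤ j ∧ Kj C j = k
    · obtain ⟨j, hj, hjk⟩ := hk
      obtain ⟨⟨h1, h2⟩, h3⟩ := hJ0 j hj
      rw [hjk] at h2
      obtain ⟨P, hP1, hP2, hP3, hP4⟩ := h1 k h2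
      exact ⟨P, fun _ => ⟨hP1, hP2⟩, fun _ => ⟨j, hj, hjk, hP3, hP4⟩⟩
    · exact ⟨cramerOn (block k), fun hk2 => ⟨fun T hT =>
        (cramerOn_pos (fun n hn => three_le_of_mem_block hk2 hn) (mem_powerset.1 hT)).le, sum_cramerOn _⟩, fun h1 => absurd h1 hk⟩
  choose P hP1 hP2 using hP
  set q : ℕ → ℝ := fun k => if ∃ j, J0 ≤ j ∧ Kj C j = k then 1 else 0 with hq
  set E : ℕ → Set (Finset ℕ) := fun k => {T | ∃ j, J0 ≤ j ∧ Kj C j = k ∧ ∀ n ∈ block j, ∃ a ∈ Hs κ j k, n + a ∈ block k ∧ n + a ∉ T}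
    with hE
  obtain ⟨Ω, mΩ, μ, hμ, A, hA, hent, hev⟩ := J.mixc P q E hP1 (fun k => by
    simp only [hq]
    split_ifs
    · exact ⟨zero_le_one, le_rfl⟩
    · exact ⟨le_rfl, zero_le_one⟩)
  refine ⟨Ω, mΩ, μ, hμ, A, hA, ?_, ?_⟩
  · -- the relative entropies
    intro η hη
    have hterm : ∀ i : ℕ, q i * ∑ T ∈ (block i).powerset, P i T * Real.log (P i T / cramerOn (block i) T) ≤
        (2 : ℝ) ^ (δ * ((i : ℝ) + 2)) + 4 := by
      intro i
      simp only [hq]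
      split_ifs with h1
      · obtain ⟨j, hj, hji, h2, -⟩ := hP2 i h1
        rw [one_mul]
        refine h2.trans (add_le_add ?_ ?_)
        · apply Real.rpow_le_rpow_of_exponent_le (by norm_num)
          have h3 : 1 - κ + ε = max 1 C * δ := by
            rw [hε]
            ring
          rw [h3]
          have h4 := Kj_le (C := C) j
          rw [hji] at h4
          calc max 1 C * δ * j = δ * (max 1 C * j) := by ring
            _ ≤ δ * ((i : ℝ) + 2) := mul_le_mul_of_nonneg_left h4 hδ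
        · have h3 : (1 : ℝ) ≤ j := by
            have := (hJ0 j hj).2
            have h4 : 1 ≤ j := by omega
            exact_mod_cast h4
          rw [div_le_iff₀ (by linarith)]
          linarith
      · rw [zero_mul]
        positivity
    filter_upwards [SI.ev_pow_le (show (0 : ℝ) < η by exact hη) 1 (8 * (2 : ℝ) ^ (δ * 2)), eventually_ge_atTop 1] with k hk hk1
    have hk0 : (1 : ℝ) ≤ k := by exact_mod_cast hk1
    have h1 : ∑ i ∈ Ico 2 (k + 1), q i * ∑ T ∈ (block i).powerset, P i T * Real.log (P i T / cramerOn (block i) T) ≤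
        k * ((2 : ℝ) ^ (δ * ((k : ℝ) + 2)) + 4) := by
      calc _ ≤ ∑ i ∈ Ico 2 (k + 1), ((2 : ℝ) ^ (δ * ((k : ℝ) + 2)) + 4) := by
            refine sum_le_sum (fun i hi => (hterm i).trans (add_le_add ?_ le_rfl))
            rw [mem_Ico] at hi
            apply Real.rpow_le_rpow_of_exponent_le (by norm_num)
            have : (i : ℝ) ≤ k := by
              have : i ≤ k := by omega
              exact_mod_cast this
            exact mul_le_mul_of_nonneg_left (by linarith) hδ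
        _ = ((Ico 2 (k + 1)).card : ℝ) * ((2 : ℝ) ^ (δ * ((k : ℝ) + 2)) + 4) := by rw [sum_const, nsmul_eq_mul]
        _ ≤ k * ((2 : ℝ) ^ (δ * ((k : ℝ) + 2)) + 4) := by
            refine mul_le_mul_of_nonneg_right ?_ (by positivity)
            rw [Nat.card_Ico]
            have : k + 1 - 2 ≤ k := by omega
            exact_mod_cast this
    refine (hent k).trans ?_
    have h2 : (1 : ℝ) ≤ (2 : ℝ) ^ (δ * ((k : ℝ) + 2)) := Real.one_le_rpow (by norm_num) (by positivity)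
    have h3 : (2 : ℝ) ^ (δ * ((k : ℝ) + 2)) = (2 : ℝ) ^ (δ * 2) * (2 : ℝ) ^ (δ * k) := by
      rw [← Real.rpow_add (by norm_num)]
      congr 1
      ring
    rw [pow_one] at hk
    have hd : (0 : ℝ) < (2 : ℝ) ^ (δ * k) := by positivity
    calc 3 + ∑ i ∈ Ico 2 (k + 1), q i * ∑ T ∈ (block i).powerset, P i T * Real.log (P i T / cramerOn (block i) T)
        ≤ 3 + k * ((2 : ℝ) ^ (δ * ((k : ℝ) + 2)) + 4) := by linarith
      _ ≤ 8 * k * (2 : ℝ) ^ (δ * ((k : ℝ) + 2)) := by nlinarith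
      _ = (8 * (2 : ℝ) ^ (δ * 2) * k) * (2 : ℝ) ^ (δ * k) := by rw [h3]; ring
      _ ≤ (2 : ℝ) ^ (η * k) * (2 : ℝ) ^ (δ * k) := mul_le_mul_of_nonneg_right hk hd.le
      _ = (2 : ℝ) ^ ((δ + η) * k) := by
          rw [← Real.rpow_add (by norm_num)]
          congr 1
          ring
  · -- the events
    have hns : ¬ Summable (fun k => q k * ∑ T ∈ (block k).powerset with T ∈ E k, P k T) := by
      intro hs
      have h1 := (hs.tendsto_atTop_zero).comp (Kj_tendsto (C := C))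
      have h2 : ∀ᶠ j : ℕ in atTop, (1 : ℝ) =
          ((fun k => q k * ∑ T ∈ (block k).powerset with T ∈ E k, P k T) ∘ Kj C) j := by
        filter_upwards [eventually_ge_atTop J0] with j hj
        have h3 : ∃ i, J0 ≤ i ∧ Kj C i = Kj C j := ⟨j, hj, rfl⟩
        obtain ⟨i, hi, hij, -, h4⟩ := hP2 _ h3
        have hk2 : 2 ≤ Kj C j := by
          have h5 := hJ0 j hj
          omega
        simp only [Function.comp, hq, if_pos h3, one_mul]
        rw [sum_filter_of_ne, (hP1 _ hk2).2]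
        intro T hT hne
        exact ⟨i, hi, hij, fun n hn => h4 T hT hne n hn⟩
      have h3 : Tendsto (fun _ : ℕ => (1 : ℝ)) atTop (𝓝 0) := h1.congr' (h2.mono (fun j hj => hj.symm))
      exact absurd (tendsto_nhds_unique h3 tendsto_const_nhds) (by norm_num)
    filter_upwards [hev hns] with ω hω hT
    -- `j` is large as `k` is large
    obtain ⟨N, hN⟩ := eventually_atTop.1 (hT.and (Hs_ok (κ := κ) hκ hC))
    have hbig : ∀ᶠ k : ℕ in atTop, ∀ j, Kj C j = k → N ≤ j := by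
      have h1 : ∀ M : ℕ, ∀ᶠ k : ℕ in atTop, ∀ j < M, Kj C j ≠ k := by
        intro M
        filter_upwards [eventually_gt_atTop ((range M).sup (Kj C))] with k hk j hj h2
        have h3 : Kj C j ≤ (range M).sup (Kj C) := le_sup (mem_range.2 hj)
        omega
      filter_upwards [h1 N] with k hk j hj
      by_contra h2
      exact hk j (not_le.1 h2) hj
    obtain ⟨k, hk1, hk2⟩ := (hω.and_eventually hbig).exists
    simp only [hE] at hk1
    obtain ⟨j, hj, hjk, h1⟩ := hk1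
    obtain ⟨h2, h3, h4⟩ := hN j (hk2 j hjk)
    rw [hjk] at h3 h4
    obtain ⟨n, hn, h5⟩ := h2 (Hs κ j k) h3 h4
    obtain ⟨a, ha, h6, h7⟩ := h1 n hn
    exact h7 (mem_tr.2 ⟨h6, h5 a ha⟩)

theorem not_all' {δ : ℝ} {E : Set ℕ → Prop} (h : SomeLow δ (fun S => ¬ E S)) : ¬ AllLow δ E := by
  intro hall
  obtain ⟨Ω, mΩ, μ, hμ, A, hA, hd, hP⟩ := h
  have h2 : ∀ᵐ _ω ∂μ, False := by
    filter_upwards [hall Ω μ A hA hd, hP] with ω h3 h4
    exact h4 h3
  rw [eventually_false_iff_eq_bot, ae_eq_bot] at h2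
  have h3 : μ Set.univ = 1 := measure_univ
  rw [h2] at h3
  simp at h3

end Pool.Agent.Q120.TL
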