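import Pool.Agent.Q120.TL.Stm2
import Pool.Agent.Q120.TL.Main

/-!
# Project TL: assembly, second part
-/

set_option autoImplicit false

namespace Pool.Agent.Q120.TL

open Finset MeasureTheory Filter Pool.Agent.Q120.ET Pool.Agent.Q120.GM Pool.Agent.Q120.GE Pool.Agent.Q120.RZ
open scoped Topology

/-- The jobs of the second part. -/
structure TJobs2 : Prop where
  law : J_LAW
  ent : J_ENT
  tlb : J_TLB
  tld : J_TLD
  mixd : J_MIXD

/-- All random sets with relative entropies on `[3, 2 ^ (k + 1))` at most `d k` almost surely have the property `E`. -/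
def AllD (d : ℕ → ℝ) (E : Set ℕ → Prop) : Prop :=
  ∀ (Ω : Type) [MeasurableSpace Ω] (μ : Measure Ω) [IsProbabilityMeasure μ] (A : Ω → Set ℕ), IsRandomSet A →
    (∀ᶠ k : ℕ in atTop, relEntropy μ A (low (k + 1)) ≤ d k) → ∀ᵐ ω ∂μ, E (A ω)

/-- Every set of `h` integers has infinitely many translates in `S`. -/
def Tuples (h : ℕ) (S : Set ℕ) : Prop := ∀ H : Finset ℕ, H.card = h → ∃ᶠ n : ℕ in atTop, ∀ a ∈ H, n + a ∈ S

/-- Every finite set of integers has infinitely many translates in `S`. -/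
def KTuples (S : Set ℕ) : Prop := ∀ H : Finset ℕ, ∃ᶠ n : ℕ in atTop, ∀ a ∈ H, n + a ∈ S

variable {Ω : Type} [MeasurableSpace Ω] {μ : Measure Ω} [IsProbabilityMeasure μ] {A : Ω → Set ℕ}

/-- If the probabilities of `B k` are small for infinitely many `k`, almost surely infinitely many `B k` fail. -/
theorem ae_frequently {B : ℕ → Set Ω} (h : ∀ ε : ℝ, 0 < ε → ∃ᶠ k : ℕ in atTop, μ.real (B k) ≤ ε) :
    ∀ᵐ ω ∂μ, ∃ᶠ k : ℕ in atTop, ω ∉ B k := by
  have h1 : ∀ N : ℕ, μ {ω | ∀ k, N ≤ k → ω ∈ B k} = 0 := by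
    intro N
    have h2 : ∀ ε : ℝ, 0 < ε → μ.real {ω | ∀ k, N ≤ k → ω ∈ B k} ≤ ε := by
      intro ε hε
      obtain ⟨k, hk1, hk2⟩ := (h ε hε).forall_exists_of_atTop N
      exact (measureReal_mono (show {ω | ∀ k, N ≤ k → ω ∈ B k} ⊆ B k from fun ω hω => hω k hk1)).trans hk2
    have h3 : μ.real {ω | ∀ k, N ≤ k → ω ∈ B k} = 0 :=
      le_antisymm (le_of_forall_pos_le_add (fun ε hε => by rw [zero_add]; exact h2 ε hε)) measureReal_nonneg
    exact (measureReal_eq_zero_iff).1 h3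
  have h2 : ∀ᵐ ω ∂μ, ∀ N : ℕ, ¬ ∀ k, N ≤ k → ω ∈ B k := by
    rw [ae_all_iff]
    intro N
    exact measure_eq_zero_iff_ae_notMem.1 (h1 N)
  filter_upwards [h2] with ω hω
  rw [frequently_atTop]
  intro N
  have h3 := hω N
  push Not at h3
  exact h3

theorem tuple_pos (J : TJobs2) {h : ℕ} {d : ℕ → ℝ} (hd : ∀ c : ℝ, 0 < c → ∃ᶠ k : ℕ in atTop, d k ≤ c * 2 ^ k / (k : ℝ) ^ h)
    (H : Finset ℕ) (hH : H.card = h) : AllD d (fun S => ∃ᶠ n : ℕ in atTop, ∀ a ∈ H, n + a ∈ S) := by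
  classical
  intro Ω _ μ _ A hA hD
  obtain ⟨c, hc, h1⟩ := J.tlb H
  rw [hH] at h1
  have h2 : ∀ᵐ ω ∂μ, ∃ᶠ k : ℕ in atTop, ω ∉ {ω | ∀ n ∈ block k, ∃ a ∈ H, n + a ∉ tr A (low (k + 1)) ω} := by
    refine ae_frequently (fun ε hε => ?_)
    have hgrow : ∀ᶠ k : ℕ in atTop, (2 / (ε * c)) * (k : ℝ) ^ h ≤ (2 : ℝ) ^ ((1 : ℝ) * k) := SI.ev_pow_le one_pos h _
    refine ((hd (ε * c / 2) (by positivity)).and_eventually
      (((h1.and hD).and (eventually_ge_atTop 1)).and hgrow)).mono (fun k hk => ?_)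
    obtain ⟨hk1, ⟨⟨hk2, hk3⟩, hk4⟩, hk5⟩ := hk
    have hk0 : (0 : ℝ) < k := by
      have : 0 < k := hk4
      exact_mod_cast this
    have hu : 0 < c * 2 ^ k / (k : ℝ) ^ h := by positivity
    have h3 := J.ent J.law k (fun T => ∀ n ∈ block k, ∃ a ∈ H, n + a ∉ T) _ hu hk2 Ω μ A hA
    refine h3.trans ?_
    rw [div_le_iff₀ hu]
    have h4 : 1 ≤ ε / 2 * (c * 2 ^ k / (k : ℝ) ^ h) := by
      rw [one_mul, Real.rpow_natCast] at hk5
      have hp : (0 : ℝ) < (k : ℝ) ^ h := by positivity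
      rw [show ε / 2 * (c * 2 ^ k / (k : ℝ) ^ h) = (ε * c / 2 * 2 ^ k) / (k : ℝ) ^ h by ring, le_div_iff₀ hp, one_mul]
      have h5 := mul_le_mul_of_nonneg_left hk5 (show 0 ≤ ε * c / 2 by positivity)
      have h6 : ε * c / 2 * (2 / (ε * c) * (k : ℝ) ^ h) = (k : ℝ) ^ h := by field_simp
      rwa [h6] at h5
    have h5 : ε * c / 2 * 2 ^ k / (k : ℝ) ^ h = ε / 2 * (c * 2 ^ k / (k : ℝ) ^ h) := by ring
    rw [h5] at hk1
    have h6 : relEntropy μ A (low (k + 1)) ≤ ε / 2 * (c * 2 ^ k / (k : ℝ) ^ h) := hk3.trans hk1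
    linarith
  filter_upwards [h2] with ω hω
  rw [frequently_atTop]
  intro N
  obtain ⟨k, hk1, hk2⟩ := hω.forall_exists_of_atTop N
  simp only [Set.mem_setOf_eq, not_forall] at hk2
  obtain ⟨n, hn, h3⟩ := hk2
  push Not at h3
  refine ⟨n, ?_, fun a ha => (mem_tr.1 (h3 a ha)).2⟩
  rw [block, mem_Ico] at hn
  have h5 : k < 2 ^ k := Nat.lt_two_pow_self
  omega

/-- The sum of the costs. -/
theorem sum_cost (h : ℕ) : ∃ B : ℝ, 0 < B ∧ ∀ᶠ k : ℕ in atTop, ∑ i ∈ Ico 2 (k + 1), (2 : ℝ) ^ i / (i : ℝ) ^ h ≤ B * 2 ^ k / (k : ℝ) ^ h := by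
  have h1 : Tendsto (fun k : ℕ => (1 + 1 / (k : ℝ)) ^ h) atTop (𝓝 1) := by
    have h2 : Tendsto (fun k : ℕ => 1 + 1 / (k : ℝ)) atTop (𝓝 (1 + 0)) := tendsto_const_nhds.add tendsto_one_div_atTop_nhds_zero_nat
    have h3 := h2.pow h
    simpa using h3
  obtain ⟨K, hK⟩ := eventually_atTop.1 ((h1.eventually_le_const (show (1 : ℝ) < 3 / 2 by norm_num)).and (eventually_ge_atTop 1))
  set s : ℕ → ℝ := fun k => ∑ i ∈ Ico 2 (k + 1), (2 : ℝ) ^ i / (i : ℝ) ^ h with hs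
  set B : ℝ := max 4 (s (max K 2) * ((max K 2 : ℕ) : ℝ) ^ h / 2 ^ (max K 2)) with hB
  have hB4 : 4 ≤ B := le_max_left _ _
  refine ⟨B, by linarith, ?_⟩
  filter_upwards [eventually_ge_atTop (max K 2)] with k hk
  induction k, hk using Nat.le_induction with
  | base =>
    have hp : (0 : ℝ) < ((max K 2 : ℕ) : ℝ) ^ h := by
      have : 0 < max K 2 := lt_of_lt_of_le (by norm_num) (le_max_right K 2)
      positivity
    have h2 : s (max K 2) * ((max K 2 : ℕ) : ℝ) ^ h / 2 ^ (max K 2) ≤ B := le_max_right _ _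
    rw [div_le_iff₀ (by positivity)] at h2
    rw [le_div_iff₀ hp]
    exact h2
  | succ k hk ih =>
    have hk2 : 2 ≤ k := (le_max_right K 2).trans hk
    have hk0 : (0 : ℝ) < k := by
      have : 0 < k := by omega
      exact_mod_cast this
    obtain ⟨h2, -⟩ := hK k ((le_max_left K 2).trans hk)
    rw [sum_Ico_succ_top (by omega : 2 ≤ k + 1)]
    push_cast
    have hp : (0 : ℝ) < ((k : ℝ) + 1) ^ h := by positivity
    have h3 : B * 2 ^ k / (k : ℝ) ^ h = B / 2 * (1 + 1 / (k : ℝ)) ^ h * (2 ^ (k + 1) / ((k : ℝ) + 1) ^ h) := by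
      have h4 : (1 + 1 / (k : ℝ)) = ((k : ℝ) + 1) / k := by field_simp
      rw [h4, div_pow, pow_succ]
      field_simp
    have h4 : B / 2 * (1 + 1 / (k : ℝ)) ^ h ≤ B / 2 * (3 / 2) := mul_le_mul_of_nonneg_left h2 (by linarith)
    have h5 : (0 : ℝ) ≤ 2 ^ (k + 1) / ((k : ℝ) + 1) ^ h := by positivity
    calc ∑ i ∈ Ico 2 (k + 1), (2 : ℝ) ^ i / (i : ℝ) ^ h + 2 ^ (k + 1) / ((k : ℝ) + 1) ^ h
        ≤ B / 2 * (3 / 2) * (2 ^ (k + 1) / ((k : ℝ) + 1) ^ h) + 2 ^ (k + 1) / ((k : ℝ) + 1) ^ h := by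
          refine add_le_add (ih.trans ?_) le_rfl
          rw [h3]
          exact mul_le_mul_of_nonneg_right h4 h5
      _ = (3 / 4 * B + 1) * (2 ^ (k + 1) / ((k : ℝ) + 1) ^ h) := by ring
      _ ≤ B * (2 ^ (k + 1) / ((k : ℝ) + 1) ^ h) := mul_le_mul_of_nonneg_right (by linarith) h5
      _ = B * 2 ^ (k + 1) / ((k : ℝ) + 1) ^ h := by ring

theorem tuple_neg (J : TJobs2) {h : ℕ} (hh : 1 ≤ h) {d : ℕ → ℝ} {c : ℝ} (hc : 0 < c)
    (hd : ∀ᶠ k : ℕ in atTop, c * 2 ^ k / (k : ℝ) ^ h < d k) : ¬ AllD d (Tuples h) := by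
  classical
  intro hall
  obtain ⟨C, hC, hP⟩ := J.tld h hh
  obtain ⟨K, hK⟩ := eventually_atTop.1 hP
  have hP' : ∀ k : ℕ, ∃ P : Finset ℕ → ℝ, (2 ≤ k → (∀ T ∈ (block k).powerset, 0 ≤ P T) ∧ ∑ T ∈ (block k).powerset, P T = 1) ∧
      (2 ≤ k → ∑ T ∈ (block k).powerset, P T * Real.log (P T / cramerOn (block k) T) ≤ C * (2 ^ k / (k : ℝ) ^ h)) ∧
      (K ≤ k → ∀ T ∈ (block k).powerset, P T ≠ 0 → ∀ n ∈ block k, ∃ a < h, n + a ∈ block k ∧ n + a ∉ T) := by
    intro k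
    rcases lt_or_ge k K with hk | hk
    · refine ⟨cramerOn (block k), fun hk2 => ⟨fun T hT =>
        (cramerOn_pos (fun n hn => three_le_of_mem_block hk2 hn) (mem_powerset.1 hT)).le, sum_cramerOn _⟩, fun hk2 => ?_,
        fun h1 => absurd h1 (not_le.2 hk)⟩
      rw [sum_eq_zero]
      · positivity
      · intro T hT
        have h1 := cramerOn_pos (fun n hn => three_le_of_mem_block hk2 hn) (mem_powerset.1 hT)
        rw [div_self h1.ne', Real.log_one, mul_zero]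
    · obtain ⟨P, h1, h2, h3, h4⟩ := hK k hk
      exact ⟨P, fun _ => ⟨h1, h2⟩, fun _ => h3.trans (le_of_eq (by ring)), fun _ => h4⟩
  choose P hP1 hP2 hP3 using hP'
  obtain ⟨B, hB, hsum⟩ := sum_cost h
  set q : ℝ := min 1 (c / (2 * (C * B))) with hq
  have hq0 : 0 < q := lt_min one_pos (by positivity)
  have hq1 : q ≤ 1 := min_le_left _ _
  obtain ⟨Ω, mΩ, μ, hμ, A, hA, hent, hev⟩ := J.mixd P q hP1 hq0 hq1
  have hgrow : ∀ᶠ k : ℕ in atTop, (6 / c) * (k : ℝ) ^ h ≤ (2 : ℝ) ^ ((1 : ℝ) * k) := SI.ev_pow_le one_pos h _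
  have h1 := hall Ω μ A hA (by
    filter_upwards [hd, hsum, hgrow, eventually_ge_atTop 2] with k hk hk2 hk3 hk4
    have hk0 : (0 : ℝ) < k := by
      have : 0 < k := by omega
      exact_mod_cast this
    refine (hent k).trans ?_
    have h2 : ∑ i ∈ Ico 2 (k + 1), ∑ T ∈ (block i).powerset, P i T * Real.log (P i T / cramerOn (block i) T) ≤
        C * (B * 2 ^ k / (k : ℝ) ^ h) := by
      refine (sum_le_sum (fun i hi => hP2 i (mem_Ico.1 hi).1)).trans ?_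
      rw [← mul_sum]
      exact mul_le_mul_of_nonneg_left hk2 hC.le
    have h3 : q * ∑ i ∈ Ico 2 (k + 1), ∑ T ∈ (block i).powerset, P i T * Real.log (P i T / cramerOn (block i) T) ≤
        c / 2 * (2 ^ k / (k : ℝ) ^ h) := by
      have hX : 0 ≤ C * (B * 2 ^ k / (k : ℝ) ^ h) := by positivity
      calc _ ≤ q * (C * (B * 2 ^ k / (k : ℝ) ^ h)) := mul_le_mul_of_nonneg_left h2 hq0.le
        _ ≤ c / (2 * (C * B)) * (C * (B * 2 ^ k / (k : ℝ) ^ h)) := mul_le_mul_of_nonneg_right (min_le_right _ _) hX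
        _ = c / 2 * (2 ^ k / (k : ℝ) ^ h) := by
          field_simp
    have h4 : 3 ≤ c / 2 * (2 ^ k / (k : ℝ) ^ h) := by
      rw [one_mul, Real.rpow_natCast] at hk3
      have hp : (0 : ℝ) < (k : ℝ) ^ h := by positivity
      rw [← mul_div_assoc, le_div_iff₀ hp]
      have h5 := mul_le_mul_of_nonneg_left hk3 (show 0 ≤ c / 2 by positivity)
      have h6 : c / 2 * (6 / c * (k : ℝ) ^ h) = 3 * (k : ℝ) ^ h := by
        field_simp
        ring
      rwa [h6] at h5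
    have h5 : c * 2 ^ k / (k : ℝ) ^ h = c / 2 * (2 ^ k / (k : ℝ) ^ h) + c / 2 * (2 ^ k / (k : ℝ) ^ h) := by ring
    linarith)
  refine hev ?_
  filter_upwards [h1] with ω hω
  by_contra h2
  push Not at h2
  have h3 := hω (range h) (card_range h)
  rw [frequently_atTop] at h3
  obtain ⟨n, hn, h4⟩ := h3 (2 ^ (max K 2))
  have hn0 : n ≠ 0 := by
    have : 0 < 2 ^ (max K 2) := by positivity
    omega
  obtain ⟨k, hk⟩ : ∃ k, k = Nat.log 2 n := ⟨_, rfl⟩
  have hnb : n ∈ block k := by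
    rw [hk, block, mem_Ico]
    exact ⟨Nat.pow_log_le_self 2 hn0, Nat.lt_pow_succ_log_self (by norm_num) n⟩
  have hk1 : max K 2 ≤ k := by
    rw [hk]
    exact Nat.le_log_of_pow_le (by norm_num) hn
  obtain ⟨a, ha, h5, h6⟩ := hP3 k ((le_max_left _ _).trans hk1) (tr A (block k) ω)
    (mem_powerset.2 (fun m hm => (mem_tr.1 hm).1)) (h2 k ((le_max_right _ _).trans hk1)) n hnb
  exact h6 (mem_tr.2 ⟨h5, h4 a (mem_range.2 ha)⟩)

/-- **Exact threshold for the tuples of `h` elements.** -/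
theorem tuples_iff (J : TJobs2) {h : ℕ} (hh : 1 ≤ h) (d : ℕ → ℝ) :
    AllD d (Tuples h) ↔ ∀ c : ℝ, 0 < c → ∃ᶠ k : ℕ in atTop, d k ≤ c * 2 ^ k / (k : ℝ) ^ h := by
  constructor
  · intro h1 c hc
    by_contra h2
    rw [not_frequently] at h2
    exact tuple_neg J hh hc (h2.mono (fun k hk => not_le.1 hk)) h1
  · intro hd Ω _ μ _ A hA hD
    have h1 : ∀ H : Finset ℕ, ∀ᵐ ω ∂μ, H.card = h → ∃ᶠ n : ℕ in atTop, ∀ a ∈ H, n + a ∈ A ω := by
      intro H
      by_cases hH : H.card = h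
      · filter_upwards [tuple_pos J hd H hH Ω μ A hA hD] with ω hω _
        exact hω
      · exact Filter.Eventually.of_forall (fun ω h2 => absurd h2 hH)
    filter_upwards [ae_all_iff.2 h1] with ω hω H hH
    exact hω H hH

/-- **Exact threshold for the prime k-tuples conjecture.** -/
theorem ktuples_iff (J : TJobs2) (d : ℕ → ℝ) :
    AllD d KTuples ↔ ∀ h : ℕ, ∃ᶠ k : ℕ in atTop, d k ≤ 2 ^ k / (k : ℝ) ^ h := by
  constructor
  · intro h1 h
    have h2 : AllD d (Tuples (h + 1)) := fun Ω _ μ _ A hA hD => (h1 Ω μ A hA hD).mono (fun ω hω H _ => hω H)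
    have h3 := (tuples_iff J (by omega) d).1 h2 1 one_pos
    refine (h3.and_eventually (eventually_ge_atTop 1)).mono (fun k hk => hk.1.trans ?_)
    have hk0 : (1 : ℝ) ≤ k := by exact_mod_cast hk.2
    rw [one_mul]
    apply div_le_div_of_nonneg_left (by positivity) (by positivity)
    exact pow_le_pow_right₀ hk0 (by omega)
  · intro h1 Ω _ μ _ A hA hD
    have h2 : ∀ h : ℕ, ∀ᵐ ω ∂μ, Tuples h (A ω) := by
      intro h
      rcases Nat.eq_zero_or_pos h with h0 | hpos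
      · refine Filter.Eventually.of_forall (fun ω H hH => ?_)
        rw [h0, card_eq_zero] at hH
        rw [hH]
        exact Filter.Eventually.frequently (Filter.Eventually.of_forall (fun n a ha => absurd ha (notMem_empty a)))
      · refine (tuples_iff J hpos d).2 (fun c hc => ?_) Ω μ A hA hD
        have h3 : ∀ᶠ k : ℕ in atTop, 1 / c ≤ (k : ℝ) := tendsto_natCast_atTop_atTop.eventually_ge_atTop (1 / c)
        refine ((h1 (h + 1)).and_eventually (h3.and (eventually_ge_atTop 1))).mono (fun k hk => hk.1.trans ?_)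
        have hk0 : (0 : ℝ) < k := by
          have : 0 < k := hk.2.2
          exact_mod_cast this
        have h4 := hk.2.1
        rw [div_le_iff₀ hc] at h4
        rw [pow_succ, div_le_div_iff₀ (by positivity) (by positivity)]
        have hp : (0 : ℝ) < 2 ^ k * (k : ℝ) ^ h := by positivity
        nlinarith
    filter_upwards [ae_all_iff.2 h2] with ω hω H
    exact hω H.card H rfl

end Pool.Agent.Q120.TL
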