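import Pool.Agent.Q120.SI.Stm
import Pool.Agent.Q120.RZ.Main

/-!
# Project TL: growing tuples in ALL random sets near Cramér's model

`A` is ANY random set of integers, `D(x)` the relative entropy (nats) of its law on `[3, x)` with respect to Cramér's model, `D(x) ≤ x ^ (δ + o(1))`
(class `δ`). Result of the project, assembled from the jobs: for `C ≥ 1`, `κ > 0`, if `κ + C δ < 1` then for all `A` in class `δ` almost
surely for all large `j` EVERY set `H` of at most `κ log x / log log x` shifts `≤ x ^ C`, `x = 2 ^ j`, has an `n` in `[x, 2 x)` with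
`n + H ⊆ A`; if `κ + C δ > 1` some `A` in class `δ` almost surely violates this for infinitely many `j`.

Each job is a definition `J_… : Prop`; a theorem `t_… : J_…` is to be proved. The proofs are complete in the docstrings.
Tools: `Q120.RN.Sets` (`disjoint_translates`, and the proof of `every_set`, which is the case `δ = 0`), `GM.Basic` (`harris`, `real_all`),
`GM.Indep` (`indep_many`), `Q120.ET.Construct`, `Q151.SI.Mixb` (`t_MIXB`), `Q120.GE.Stm` (`J_CHAIN` and its proof in the pool).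
-/

set_option autoImplicit false

namespace Pool.Agent.Q120.TL

open Finset MeasureTheory Filter Pool.Agent.Q120.ET Pool.Agent.Q120.GM Pool.Agent.Q120.GE Pool.Agent.Q120.RZ
open scoped Topology

/-- `log x / log log x` for `x = 2 ^ j`, up to the factor `1 + o(1)`. -/
noncomputable def Ln (j : ℕ) : ℝ := j * Real.log 2 / Real.log j

/-- Every set of at most `κ Ln j` shifts up to `2 ^ (C j)` has a translate by an `n` of the block `j` inside `S`, for all large `j`. -/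
def Tup (κ C : ℝ) (S : Set ℕ) : Prop := ∀ᶠ j : ℕ in atTop, ∀ H : Finset ℕ, (∀ a ∈ H, (a : ℝ) ≤ (2 : ℝ) ^ (C * j)) →
  (H.card : ℝ) ≤ κ * Ln j → ∃ n ∈ block j, ∀ a ∈ H, n + a ∈ S

/-- **Job TLA.** The model.
Proof (as `RN.Sets.every_set`). For a fixed `H` with `h = |H| ≤ κ Ln j`: `disjoint_translates` with `Y = block j` gives `Z ⊆ block j` with
pairwise disjoint translates, `2 ^ j ≤ (h ^ 2 + 1) |Z|`. All `n + a` are `≥ 3` and at most `2 ^ (j + 1) + 2 ^ (C j) ≤ 2 ^ (C j + 2)`, so `pc ≥ 1 / ((C j + 2) log 2)`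
(`log 2 < 1`: `≥ 1 / (C j + 2)`), and each `n + H ⊆ A` has probability at least `p = (C j + 2) ^ (-h) ≥ 2 ^ (-(κ + η / 2) j)` for large `j`
(`h log (C j + 2) ≤ κ j log 2 (log j + log (C + 2)) / log j`). By independence (`indep_many`) no `n ∈ Z` works with probability at most
`(1 - p) ^ |Z| ≤ exp (-p 2 ^ j / (h ^ 2 + 1))`. The number of the sets `H` is at most `(2 ^ (C j) + 2) ^ (κ Ln j + 1)`, at most `exp (C' j ^ 2)`.
So the probability is at most `exp (C' j ^ 2 - 2 ^ ((1 - κ - η / 2) j) / (j ^ 2 C'')) ≤ exp (-2 ^ ((1 - κ - η) j))` for large `j`, as `κ + η < 1`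
(the case `H = ∅` is no problem, `h ^ 2 + 1 ≥ 1`). -/
def J_TLA : Prop := ∀ κ C η : ℝ, 0 < κ → 1 ≤ C → 0 < η → κ + η < 1 → ∀ᶠ j : ℕ in atTop,
  ∀ (Ω : Type) [MeasurableSpace Ω] (μ : Measure Ω) [IsProbabilityMeasure μ] (A : Ω → Set ℕ), IsModel μ pc A →
    μ.real {ω | ∃ H : Finset ℕ, (∀ a ∈ H, (a : ℝ) ≤ (2 : ℝ) ^ (C * j)) ∧ (H.card : ℝ) ≤ κ * Ln j ∧
      ∀ n ∈ block j, ∃ a ∈ H, n + a ∉ A ω} ≤ Real.exp (-(2 : ℝ) ^ ((1 - κ - η) * j))

/-- The shifts of the counterexamples. -/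
noncomputable def Hs (κ : ℝ) (j K : ℕ) : Finset ℕ := if K = j then range ⌊κ * Ln j⌋₊ else Ico (2 ^ K) (2 ^ K + ⌊κ * Ln j⌋₊)

/-- **Job TLC.** The model conditioned on having no translate.
Proof. `h = ⌊κ Ln j⌋₊ ≥ 1`. Let `E` be the event that `A` contains none of the sets `n + Hs`, `n ∈ block j`, `n + Hs ⊆ block K`, and, if `K = j`, also
not the set `{2 ^ (j + 1) - 1}`. If `K ≥ j + 2` all `n + Hs` are contained in `block K` (`2 ^ (j + 1) + h ≤ 2 ^ K`); if `K = j` the others contain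
`2 ^ (j + 1) - 1`. So on `E` no `n ∈ block j` has `n + Hs ⊆ A`. `harris`: `P(E) ≥ ∏ (1 - ∏ pc)`, each inner product is at most
`(1 / (j log 2)) ^ h` (elements of `block K`, `K ≥ j`), at most `j exp (-(κ Ln j) log (j log 2)) ≤ 2 ^ (-(κ - ε / 2) j)` for large `j`
(`κ Ln j * log (j log 2) = κ j log 2 (1 - O(1 / log j))`), and `pc (2 ^ (j + 1) - 1) ≤ 1 / (j log 2)`. `-log (1 - x) ≤ 2 x` for
`0 ≤ x ≤ 1 / 2`: `log (1 / P(E)) ≤ 2 * 2 ^ j * 2 ^ (-(κ - ε / 2) j) + 2 / (j log 2) ≤ 2 ^ ((1 - κ + ε) j) + 4 / j`. `P T = cramerOn (block K) T / P(E)`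
if `T` satisfies the condition of `E`, else `0` (`real_event`, `t_LAW`): its relative entropy is `log (1 / P(E))`. -/
def J_TLC : Prop := ∀ κ ε : ℝ, 0 < κ → 0 < ε → ∀ᶠ j : ℕ in atTop, ∀ K : ℕ, (K = j ∨ j + 2 ≤ K) →
  ∃ P : Finset ℕ → ℝ, (∀ T ∈ (block K).powerset, 0 ≤ P T) ∧ ∑ T ∈ (block K).powerset, P T = 1 ∧
    ∑ T ∈ (block K).powerset, P T * Real.log (P T / cramerOn (block K) T) ≤ (2 : ℝ) ^ ((1 - κ + ε) * j) + 4 / j ∧
    ∀ T ∈ (block K).powerset, P T ≠ 0 → ∀ n ∈ block j, ∃ a ∈ Hs κ j K, n + a ∈ block K ∧ n + a ∉ T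

/-- **Job MIXC.** As `SI.J_MIXB`, with a bound for the relative entropies of the laws on `low (k + 1)`.
Proof. Same construction. `lawOn μ A (low (k + 1)) T = lawOn μ A (low k) (T ∩ low k) * lawOn μ A (blk k) (T ∩ blk k)` by the independence of the
blocks (`blk k = block k` for `k ≥ 2`, `blk 1 = {3}`, `low 1 = ∅`), so the relative entropies add (proof of `J_CHAIN` of the pool:
grep t_CHAIN). On `low 2 = {3}` the law is the point mass at `∅`: `log (1 / (1 - 1 / log 3)) ≤ 3`. -/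
def J_MIXC : Prop := ∀ (P : ℕ → Finset ℕ → ℝ) (q : ℕ → ℝ) (E : ℕ → Set (Finset ℕ)) [∀ k, DecidablePred (fun T => T ∈ E k)],
  (∀ k, 2 ≤ k → (∀ T ∈ (block k).powerset, 0 ≤ P k T) ∧ ∑ T ∈ (block k).powerset, P k T = 1) → (∀ k, 0 ≤ q k ∧ q k ≤ 1) →
  ∃ (Ω : Type) (_ : MeasurableSpace Ω) (μ : Measure Ω) (_ : IsProbabilityMeasure μ) (A : Ω → Set ℕ), IsRandomSet A ∧
    (∀ k : ℕ, relEntropy μ A (low (k + 1)) ≤
      3 + ∑ i ∈ Ico 2 (k + 1), q i * ∑ T ∈ (block i).powerset, P i T * Real.log (P i T / cramerOn (block i) T)) ∧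
    (¬ Summable (fun k => q k * ∑ T ∈ (block k).powerset with T ∈ E k, P k T) →
      ∀ᵐ ω ∂μ, ∃ᶠ k : ℕ in atTop, tr A (block k) ω ∈ E k)

end Pool.Agent.Q120.TL
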