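import Pool.Agent.Q120.TL.Stm

/-!
# Project TL, second part: the prime k-tuples conjecture itself for ALL random sets near Cramér's model

`A` is ANY random set of integers with relative entropies (on `[3, 2 ^ (k + 1))`) at most `d k`. For `h ≥ 1`: almost surely every `H` with
`h` elements has infinitely many translates in `A`, for all these `A`, iff `liminf d k * k ^ h / 2 ^ k = 0`; hence the k-tuples conjecture
(for all `H`) holds almost surely for all these `A` iff this holds for every `h`.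

Each job is a definition `J_… : Prop`; a theorem `t_… : J_…` is to be proved. The proofs are complete in the docstrings.
-/

set_option autoImplicit false

namespace Pool.Agent.Q120.TL

open Finset MeasureTheory Filter Pool.Agent.Q120.ET Pool.Agent.Q120.GM Pool.Agent.Q120.GE Pool.Agent.Q120.RZ
open scoped Topology

/-- **Job TLB.** A fixed tuple in the model.
Proof. As `J_TLA`, for one `H`: let `b = H.sup id`, `h = |H|`; `disjoint_translates` with `Y = Ico (2 ^ k) (2 ^ (k + 1) - b - 1)` (at least `2 ^ (k - 1)`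
elements for large `k`) gives `Z` with pairwise disjoint translates `z + H ⊆ low (k + 1)`, `2 ^ (k - 1) ≤ (h ^ 2 + 1) |Z|`; each is contained in
`A` with probability at least `(k + 1) ^ (-h) ≥ (2 k) ^ (-h)` (`pc n ≥ 1 / ((k + 1) log 2) ≥ 1 / (k + 1)` for `3 ≤ n < 2 ^ (k + 1)`), independently:
the probability is at most `(1 - (2 k) ^ (-h)) ^ |Z| ≤ exp (-2 ^ (k - 1) / ((h ^ 2 + 1) (2 k) ^ h))`; `c = 1 / (2 (h ^ 2 + 1) 2 ^ h)`. -/
def J_TLB : Prop := ∀ H : Finset ℕ, ∃ c : ℝ, 0 < c ∧ ∀ᶠ k : ℕ in atTop,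
  ∀ (Ω : Type) [MeasurableSpace Ω] (μ : Measure Ω) [IsProbabilityMeasure μ] (A : Ω → Set ℕ), IsModel μ pc A →
    μ.real {ω | ∀ n ∈ block k, ∃ a ∈ H, n + a ∉ tr A (low (k + 1)) ω} ≤ Real.exp (-(c * 2 ^ k / (k : ℝ) ^ H.card))

/-- **Job TLD.** The model conditioned on having no run of `h` elements in the block, nor the last element of the block.
Proof. As `J_TLC` with `K = j = k` and `⌊κ Ln j⌋₊` replaced by `h`. `E`: `A` contains none of the sets `{n, …, n + h - 1} ⊆ block k`, and not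
`2 ^ (k + 1) - 1`. `harris`: `P(E) ≥ ∏ (1 - ∏ pc)`, each inner product is at most `(1 / (k log 2)) ^ h ≤ (2 / k) ^ h` and `pc (2 ^ (k + 1) - 1) ≤ 2 / k`;
`log (1 / P(E)) ≤ 2 * 2 ^ k * (2 / k) ^ h + 2 * (2 / k) ≤ C 2 ^ k / k ^ h` for large `k`, `C = 2 * 2 ^ h + 1`
(`-log (1 - x) ≤ 2 x` for `0 ≤ x ≤ 1 / 2`). -/
def J_TLD : Prop := ∀ h : ℕ, 1 ≤ h → ∃ C : ℝ, 0 < C ∧ ∀ᶠ k : ℕ in atTop,
  ∃ P : Finset ℕ → ℝ, (∀ T ∈ (block k).powerset, 0 ≤ P T) ∧ ∑ T ∈ (block k).powerset, P T = 1 ∧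
    ∑ T ∈ (block k).powerset, P T * Real.log (P T / cramerOn (block k) T) ≤ C * 2 ^ k / (k : ℝ) ^ h ∧
    ∀ T ∈ (block k).powerset, P T ≠ 0 → ∀ n ∈ block k, ∃ a < h, n + a ∈ block k ∧ n + a ∉ T

/-- **Job MIXD.** One coin for all blocks.
Proof. Let `A₁` be the random set with independent blocks with the laws `P k` (construction of `J_MIXC` with `q = 1`) and `A₀` the one with
`q = 0`, on `Ω₁`, `Ω₀`. On `Ω = Ω₀ ⊕ Ω₁` put `μ = (1 - q) μ₀.map inl + q μ₁.map inr`, `A (inl ω) = A₀ ω`, `A (inr ω) = A₁ ω`. Then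
`lawOn μ A B T = (1 - q) lawOn μ₀ A₀ B T + q lawOn μ₁ A₁ B T` and the relative entropy is convex (`Q299.RZ.t_KL` or as in `J_MIXC`):
`relEntropy μ A (low (k + 1)) ≤ (1 - q) * 3 + q * (3 + ∑ …)`. Almost surely (`μ₁`) `P k (tr A₁ (block k) ω) ≠ 0` for all `k ≥ 2`. -/
def J_MIXD : Prop := ∀ (P : ℕ → Finset ℕ → ℝ) (q : ℝ),
  (∀ k, 2 ≤ k → (∀ T ∈ (block k).powerset, 0 ≤ P k T) ∧ ∑ T ∈ (block k).powerset, P k T = 1) → 0 < q → q ≤ 1 →
  ∃ (Ω : Type) (_ : MeasurableSpace Ω) (μ : Measure Ω) (_ : IsProbabilityMeasure μ) (A : Ω → Set ℕ), IsRandomSet A ∧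
    (∀ k : ℕ, relEntropy μ A (low (k + 1)) ≤
      3 + q * ∑ i ∈ Ico 2 (k + 1), ∑ T ∈ (block i).powerset, P i T * Real.log (P i T / cramerOn (block i) T)) ∧
    ¬ ∀ᵐ ω ∂μ, ∃ k : ℕ, 2 ≤ k ∧ P k (tr A (block k) ω) = 0

end Pool.Agent.Q120.TL
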